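import Pool.Agent.W845.GL.Stm

set_option autoImplicit false

namespace Pool.Agent.W75.GL.Fin

open Filter MeasureTheory Finset Pool.Agent.W845.GL
open scoped Classical Topology

theorem card_Eg {k : ℕ} (F : SimpleGraph (Fin k)) : (Eg F).card = F.edgeSet.ncard := by
  have h : (((Eg F).image (fun e => s(e.1, e.2)) : Finset (Sym2 (Fin k))) : Set (Sym2 (Fin k)))
      = F.edgeSet := by
    ext z
    induction z using Sym2.ind with
    | _ a b =>
      rw [Finset.coe_image, Set.mem_image]
      constructor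
      · rintro ⟨⟨i, j⟩, he, hz⟩
        rw [Finset.mem_coe, Eg, Finset.mem_filter] at he
        rw [← hz]
        exact he.2.2
      · intro hab
        have hab' : F.Adj a b := hab
        rcases lt_trichotomy a b with h | h | h
        · exact ⟨(a, b), by
            rw [Finset.mem_coe, Eg, Finset.mem_filter]
            exact ⟨Finset.mem_univ _, h, hab'⟩, rfl⟩
        · subst h
          exact absurd hab' (SimpleGraph.irrefl F)
        · exact ⟨(b, a), by
            rw [Finset.mem_coe, Eg, Finset.mem_filter]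
            exact ⟨Finset.mem_univ _, h, hab'.symm⟩, Sym2.eq_swap⟩
  rw [← h, Set.ncard_coe_finset, Finset.card_image_of_injOn]
  rintro ⟨a, b⟩ hx ⟨c, d⟩ hy hxy
  rw [Finset.mem_coe, Eg, Finset.mem_filter] at hx hy
  have h1 : a < b := hx.2.1
  have h2 : c < d := hy.2.1
  rcases Sym2.eq_iff.mp hxy with ⟨e1, e2⟩ | ⟨e1, e2⟩
  · simp only at e1 e2
    rw [e1, e2]
  · simp only at e1 e2
    rw [e1, e2] at h1
    exact absurd h1 (lt_asymm h2)

theorem prod_Eg {k : ℕ} (F : SimpleGraph (Fin k)) (f : Fin k → Fin k → ENNReal) :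
    ∏ i : Fin k, ∏ j : Fin k, (if i < j ∧ F.Adj i j then f i j else 1)
      = ∏ e ∈ Eg F, f e.1 e.2 := by
  rw [Eg, Finset.prod_filter, ← Finset.univ_product_univ, Finset.prod_product]

theorem fin_thm : S_AE → S_DG → S_NE → S_T3 → S_FIN := by
  intro hAE hDG hNE hT3
  refine ⟨?_, ?_⟩
  · obtain ⟨p, h1, h2, h3⟩ := hAE
    exact ⟨p, h1, h2, h3⟩
  · intro p h1 h2 h3
    obtain ⟨G, hG⟩ := hDG p ⟨h1, h2, h3⟩
    refine ⟨G, fun k F => cc F, ?_, ?_⟩
    · intro k F
      refine ⟨(hT3 k F).1, ?_⟩
      have h := hG k F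
      rw [card_Eg F] at h
      exact h
    · rintro ⟨κ, hm, -, hn, hκ⟩
      refine hNE κ hm hn ?_
      intro k F
      rw [← hκ k F]
      refine lintegral_congr fun x => ?_
      exact (prod_Eg F (fun i j => ENNReal.ofReal (κ (x i) (x j)))).symm

end Pool.Agent.W75.GL.Fin
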